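import Mathlib

/-!
# Bounded families and the expansion of powers
-/

namespace Pool.Agent.Y607.RT

open Complex

variable {ι : Type*}

/-- A bounded family of complex numbers. -/
def Bd (f : ι → ℂ) : Prop := ∃ M : ℝ, ∀ i, ‖f i‖ ≤ M

/-- A bounded family of real numbers. -/
def Br (f : ι → ℝ) : Prop := ∃ M : ℝ, ∀ i, |f i| ≤ M

theorem Br.add {f g : ι → ℝ} (hf : Br f) (hg : Br g) : Br fun i => f i + g i := by
  obtain ⟨M, hM⟩ := hf
  obtain ⟨N, hN⟩ := hg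
  exact ⟨M + N, fun i => (abs_add_le _ _).trans (add_le_add (hM i) (hN i))⟩

theorem Br.neg {f : ι → ℝ} (hf : Br f) : Br fun i => -f i := by
  obtain ⟨M, hM⟩ := hf
  exact ⟨M, fun i => by rw [abs_neg]; exact hM i⟩

theorem Br.sub {f g : ι → ℝ} (hf : Br f) (hg : Br g) : Br fun i => f i - g i := by
  simpa only [sub_eq_add_neg] using hf.add hg.neg

theorem Br.mul {f g : ι → ℝ} (hf : Br f) (hg : Br g) : Br fun i => f i * g i := by
  obtain ⟨M, hM⟩ := hf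
  obtain ⟨N, hN⟩ := hg
  refine ⟨M * N, fun i => ?_⟩
  rw [abs_mul]
  exact mul_le_mul (hM i) (hN i) (abs_nonneg _) ((abs_nonneg _).trans (hM i))

theorem Br.const (c : ℝ) : Br fun _ : ι => c := ⟨|c|, fun _ => le_rfl⟩

theorem Br.pow {f : ι → ℝ} (hf : Br f) (n : ℕ) : Br fun i => f i ^ n := by
  induction n with
  | zero => simpa using Br.const (ι := ι) 1
  | succ n ih => simpa only [pow_succ] using ih.mul hf

theorem Bd.add {f g : ι → ℂ} (hf : Bd f) (hg : Bd g) : Bd fun i => f i + g i := by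
  obtain ⟨M, hM⟩ := hf
  obtain ⟨N, hN⟩ := hg
  exact ⟨M + N, fun i => (norm_add_le _ _).trans (add_le_add (hM i) (hN i))⟩

theorem Bd.neg {f : ι → ℂ} (hf : Bd f) : Bd fun i => -f i := by
  obtain ⟨M, hM⟩ := hf
  exact ⟨M, fun i => by rw [norm_neg]; exact hM i⟩

theorem Bd.mul {f g : ι → ℂ} (hf : Bd f) (hg : Bd g) : Bd fun i => f i * g i := by
  obtain ⟨M, hM⟩ := hf
  obtain ⟨N, hN⟩ := hg
  refine ⟨M * N, fun i => ?_⟩
  rw [norm_mul]
  exact mul_le_mul (hM i) (hN i) (norm_nonneg _) ((norm_nonneg _).trans (hM i))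

theorem Bd.const (c : ℂ) : Bd fun _ : ι => c := ⟨‖c‖, fun _ => le_rfl⟩

theorem Bd.pow {f : ι → ℂ} (hf : Bd f) (n : ℕ) : Bd fun i => f i ^ n := by
  induction n with
  | zero => simpa using Bd.const (ι := ι) 1
  | succ n ih => simpa only [pow_succ] using ih.mul hf

theorem Bd.re {f : ι → ℂ} (hf : Bd f) : Br fun i => (f i).re := by
  obtain ⟨M, hM⟩ := hf
  exact ⟨M, fun i => (abs_re_le_norm _).trans (hM i)⟩

theorem Bd.im {f : ι → ℂ} (hf : Bd f) : Br fun i => (f i).im := by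
  obtain ⟨M, hM⟩ := hf
  exact ⟨M, fun i => (abs_im_le_norm _).trans (hM i)⟩

theorem Bd.normSq {f : ι → ℂ} (hf : Bd f) : Br fun i => normSq (f i) := by
  obtain ⟨M, hM⟩ := hf
  refine ⟨M * M, fun i => ?_⟩
  change |Complex.normSq (f i)| ≤ M * M
  rw [normSq_eq_norm_sq, abs_of_nonneg (by positivity), pow_two]
  exact mul_le_mul (hM i) (hM i) (norm_nonneg _) ((norm_nonneg _).trans (hM i))

theorem Bd.conj {f : ι → ℂ} (hf : Bd f) : Bd fun i => (starRingEnd ℂ) (f i) := by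
  obtain ⟨M, hM⟩ := hf
  exact ⟨M, fun i => by rw [RCLike.norm_conj]; exact hM i⟩

theorem Br.ofReal {f : ι → ℝ} (hf : Br f) : Bd fun i => (f i : ℂ) := by
  obtain ⟨M, hM⟩ := hf
  exact ⟨M, fun i => by rw [Complex.norm_real]; exact hM i⟩

/-! ### Powers -/

/-- The coefficient of the square. -/
def C2 : ℕ → ℂ → ℂ
  | 0, _ => 0
  | n + 1, e => n * e ^ (n - 1) + e * C2 n e

/-- The remainder of third order. -/
def T3 : ℕ → ℂ → ℂ → ℂ
  | 0, _, _ => 0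
  | n + 1, e, x => C2 n e + (e + x) * T3 n e x

theorem pow3 (n : ℕ) (e x : ℂ) :
    (e + x) ^ n = e ^ n + n * e ^ (n - 1) * x + C2 n e * x ^ 2 + x ^ 3 * T3 n e x := by
  induction n with
  | zero => simp [C2, T3]
  | succ n ih =>
    have h : (n : ℂ) * e ^ (n - 1) * e = n * e ^ n := by
      rcases n with _ | n
      · simp
      · rw [Nat.succ_sub_one]; ring
    rw [pow_succ, ih, C2, T3, Nat.add_sub_cancel]
    push_cast
    linear_combination x * h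

theorem Bd.C2 {e : ι → ℂ} (he : Bd e) (n : ℕ) : Bd fun i => C2 n (e i) := by
  induction n with
  | zero => simpa [RT.C2] using Bd.const (ι := ι) 0
  | succ n ih =>
    simp only [RT.C2]
    exact ((Bd.const _).mul (he.pow _)).add (he.mul ih)

theorem Bd.T3 {e x : ι → ℂ} (he : Bd e) (hx : Bd x) (n : ℕ) : Bd fun i => T3 n (e i) (x i) := by
  induction n with
  | zero => simpa [RT.T3] using Bd.const (ι := ι) 0
  | succ n ih =>
    simp only [RT.T3]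
    exact (Bd.C2 he n).add ((he.add hx).mul ih)

theorem expP (n : ℕ) (ε : ℝ) (e g : ℂ) :
    ((ε : ℂ) * g + e) ^ n = e ^ n + (ε : ℂ) * (n * e ^ (n - 1) * g) +
      ((ε ^ 2 : ℝ) : ℂ) * (C2 n e * g ^ 2) + ((ε ^ 3 : ℝ) : ℂ) * (g ^ 3 * T3 n e (ε * g)) := by
  rw [add_comm, pow3]
  push_cast
  ring

theorem expE (n : ℕ) (hn : Even n) (ε : ℝ) (e g : ℂ) :
    ((ε : ℂ) * g - e) ^ n = e ^ n - (ε : ℂ) * (n * e ^ (n - 1) * g) +
      ((ε ^ 2 : ℝ) : ℂ) * (C2 n e * g ^ 2) - ((ε ^ 3 : ℝ) : ℂ) * (g ^ 3 * T3 n e (-(ε * g))) := by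
  rw [show (ε : ℂ) * g - e = -(e + -(ε * g)) by ring, hn.neg_pow, pow3]
  push_cast
  ring

theorem expO (n : ℕ) (hn : Odd n) (ε : ℝ) (e g : ℂ) :
    ((ε : ℂ) * g - e) ^ n = -e ^ n + (ε : ℂ) * (n * e ^ (n - 1) * g) -
      ((ε ^ 2 : ℝ) : ℂ) * (C2 n e * g ^ 2) + ((ε ^ 3 : ℝ) : ℂ) * (g ^ 3 * T3 n e (-(ε * g))) := by
  rw [show (ε : ℂ) * g - e = -(e + -(ε * g)) by ring, hn.neg_pow, pow3]
  push_cast
  ring

end Pool.Agent.Y607.RT
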