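import Pool.Agent.Y607.RT.Near

/-!
# The choice of the coefficients
-/

namespace Pool.Agent.Y607.RT

open Real

theorem solve2 (s y : ℝ) (hs : s ≠ 0) : ∃ x, 2 * x * s = y := ⟨y / (2 * s), by field_simp⟩

theorem coef_of (k : ℕ) (t : ℝ) (hc : cos t ≠ 0) (hs : sin t ≠ 0) (h1 : sin (k * t - t) ≠ 0)
    (h2 : sin (k * t + t) ≠ 0) (h4 : sin (4 * (k * t)) ≠ 0)
    (h5 : k * sin (2 * t) - sin (2 * (k * t)) ≠ 0) :
    ∃ a b α β β' D0 : ℝ, 2 * a * cos t = cos (k * t) ∧ 2 * b * sin t = sin (k * t) ∧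
      2 * α * sin (2 * (k * t)) = -(k * (a - b) * sin ((k - 1) * t)) ∧
      β = -(-(a ^ 2 + b ^ 2) / 2 + k * (a + b) * cos ((k - 1) * t) / 2) ∧
      2 * β' * sin (4 * (k * t)) = (a ^ 2 - b ^ 2) / 2 * sin (2 * (k * t)) -
        k * (a - b) / 2 * sin (2 * (k * t) + (k - 1) * t) ∧
      D0 = (-(a ^ 2 - b ^ 2) / 2) * sin (2 * (k * t)) +
        k * (a - b) / 2 * sin (2 * (k * t) - (k - 1) * t) ∧ D0 ≠ 0 := by
  have h3 : sin (2 * (k * t)) ≠ 0 := by
    intro h
    apply h4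
    rw [show 4 * ((k : ℝ) * t) = 2 * (2 * (k * t)) by ring, sin_two_mul, h]
    ring
  obtain ⟨a, ha⟩ := solve2 (cos t) (cos (k * t)) hc
  obtain ⟨b, hb⟩ := solve2 (sin t) (sin (k * t)) hs
  obtain ⟨α, hα⟩ := solve2 (sin (2 * (k * t))) (-(k * (a - b) * sin ((k - 1) * t))) h3
  obtain ⟨β', hβ'⟩ := solve2 (sin (4 * (k * t))) ((a ^ 2 - b ^ 2) / 2 * sin (2 * (k * t)) -
      k * (a - b) / 2 * sin (2 * (k * t) + (k - 1) * t)) h4
  refine ⟨a, b, α, _, β', _, ha, hb, hα, rfl, hβ', rfl, ?_⟩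
  have e1 : (a - b) * sin (2 * t) = -sin (k * t - t) := by
    rw [sin_two_mul, sin_sub]
    linear_combination sin t * ha - cos t * hb
  have e2 : (a + b) * sin (2 * t) = sin (k * t + t) := by
    rw [sin_two_mul, sin_add]
    linear_combination sin t * ha + cos t * hb
  have e3 : ((-(a ^ 2 - b ^ 2) / 2) * sin (2 * (k * t)) +
      k * (a - b) / 2 * sin (2 * (k * t) - (k - 1) * t)) * (2 * sin (2 * t) ^ 2) =
      -(sin (k * t - t) * sin (k * t + t) * (k * sin (2 * t) - sin (2 * (k * t)))) := by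
    rw [show 2 * ((k : ℝ) * t) - (k - 1) * t = k * t + t by ring]
    have e4 : (a ^ 2 - b ^ 2) * sin (2 * t) ^ 2 = -sin (k * t - t) * sin (k * t + t) := by
      rw [← e1, ← e2]; ring
    linear_combination (-sin (2 * (k * t))) * e4 + k * sin (k * t + t) * sin (2 * t) * e1
  intro h0
  rw [h0, zero_mul] at e3
  have : sin (k * t - t) * sin (k * t + t) * (k * sin (2 * t) - sin (2 * (k * t))) = 0 := by
    linarith
  rcases mul_eq_zero.mp this with h | h
  · rcases mul_eq_zero.mp h with h | h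
    · exact h1 h
    · exact h2 h
  · exact h5 h

theorem coef (t : ℝ) (h0 : 0 < t) (h1 : t < π / 4) (h6 : t ≠ π / 6) :
    ∃ k : ℕ, Odd k ∧ ∃ a b α β β' D0 : ℝ, 2 * a * cos t = cos (k * t) ∧
      2 * b * sin t = sin (k * t) ∧
      2 * α * sin (2 * (k * t)) = -(k * (a - b) * sin ((k - 1) * t)) ∧
      β = -(-(a ^ 2 + b ^ 2) / 2 + k * (a + b) * cos ((k - 1) * t) / 2) ∧
      2 * β' * sin (4 * (k * t)) = (a ^ 2 - b ^ 2) / 2 * sin (2 * (k * t)) -
        k * (a - b) / 2 * sin (2 * (k * t) + (k - 1) * t) ∧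
      D0 = (-(a ^ 2 - b ^ 2) / 2) * sin (2 * (k * t)) +
        k * (a - b) / 2 * sin (2 * (k * t) - (k - 1) * t) ∧ D0 ≠ 0 := by
  have hπ := pi_pos
  have hc : cos t ≠ 0 := (cos_pos_of_mem_Ioo ⟨by linarith, by linarith⟩).ne'
  have hs : sin t ≠ 0 := (sin_pos_of_pos_of_lt_pi h0 (by linarith)).ne'
  have hs2 : 0 < sin (2 * t) := sin_pos_of_pos_of_lt_pi (by linarith) (by linarith)
  by_cases h12 : t = π / 12
  · refine ⟨5, by decide, coef_of 5 t hc hs ?_ ?_ ?_ ?_⟩
    · refine (sin_pos_of_pos_of_lt_pi ?_ ?_).ne' <;> push_cast <;> linarith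
    · refine (sin_pos_of_pos_of_lt_pi ?_ ?_).ne' <;> push_cast <;> linarith
    · have e1 : (4 * (((5 : ℕ) : ℝ) * t)) = 2 * π - π / 3 := by push_cast; rw [h12]; ring
      rw [e1, sin_two_pi_sub]
      exact neg_ne_zero.mpr (sin_pos_of_pos_of_lt_pi (by linarith) (by linarith)).ne'
    · have e1 : (2 * (((5 : ℕ) : ℝ) * t)) = π - π / 6 := by push_cast; rw [h12]; ring
      have e2 : 2 * t = π / 6 := by rw [h12]; ring
      rw [e1, e2, sin_pi_sub, sin_pi_div_six]
      norm_num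
  · refine ⟨3, by decide, coef_of 3 t hc hs ?_ ?_ ?_ ?_⟩
    · refine (sin_pos_of_pos_of_lt_pi ?_ ?_).ne' <;> push_cast <;> linarith
    · refine (sin_pos_of_pos_of_lt_pi ?_ ?_).ne' <;> push_cast <;> linarith
    · intro h
      rw [sin_eq_zero_iff] at h
      obtain ⟨n, hn⟩ := h
      push_cast at hn
      have g1 : (0 : ℝ) < n := by
        by_contra hh
        push Not at hh
        nlinarith
      have g2 : (n : ℝ) < 3 := by
        by_contra hh
        push Not at hh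
        nlinarith
      have g3 : 0 < n := by exact_mod_cast g1
      have g4 : n < 3 := by exact_mod_cast g2
      obtain rfl | rfl : n = 1 ∨ n = 2 := by omega
      · apply h12; push_cast at hn; linarith
      · apply h6; push_cast at hn; linarith
    · have e1 : (2 * (((3 : ℕ) : ℝ) * t)) = 3 * (2 * t) := by push_cast; ring
      rw [e1, sin_three_mul]
      push_cast
      have : 0 < sin (2 * t) ^ 3 := by positivity
      intro h
      linarith

end Pool.Agent.Y607.RT
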