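import Pool.Agent.Y607.RT.Bd

/-!
# The value at the end points of a diagonal
-/

namespace Pool.Agent.Y607.RT

open Complex

variable {ι : Type*}

theorem real_core (α β β' : ℝ) (ε y x q t t' w d r r' p d2 s s' W v v' m : ι → ℝ)
    (hε : ∀ i, 0 < ε i ∧ ε i ≤ 1 / 2) (hw : ∀ i, |w i| ≤ 1)
    (by_ : Br y) (bx : Br x) (bq : Br q) (bt : Br t) (bt' : Br t') (bd : Br d)
    (br : Br r) (br' : Br r') (bp : Br p) (bd2 : Br d2) (bs : Br s) (bs' : Br s') (bW : Br W)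
    (bv : Br v) (bv' : Br v')
    (h1 : ∀ i, (1 + ε i * (w i + ε i * d i + ε i ^ 2 * r i)) *
      (y i + ε i * x i + ε i ^ 2 * q i + ε i ^ 3 * t i) +
      ε i * (α * (p i + ε i * d2 i + ε i ^ 2 * s i)) +
      ε i ^ 2 * (β * (w i + ε i * d i + ε i ^ 2 * r i) + β' * (W i + ε i * v i)) = m i)
    (h2 : ∀ i, (1 + ε i * (w i - ε i * d i + ε i ^ 2 * r' i)) *
      (-y i + ε i * x i - ε i ^ 2 * q i + ε i ^ 3 * t' i) +
      ε i * (α * (p i - ε i * d2 i + ε i ^ 2 * s' i)) +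
      ε i ^ 2 * (β * (w i - ε i * d i + ε i ^ 2 * r' i) + β' * (W i + ε i * v' i)) = m i) :
    ∃ M : ℝ, ∀ i, |y i| ≤ M * ε i ^ 2 ∧
      |m i - ε i * (x i + α * p i) - ε i ^ 2 * (w i * x i + β * w i + β' * W i)| ≤
        M * ε i ^ 3 := by
  have bε : Br ε := ⟨1 / 2, fun i => by rw [abs_of_pos (hε i).1]; exact (hε i).2⟩
  have bw : Br w := ⟨1, hw⟩
  -- first remainder
  have B1 : Br fun i => (1 + ε i * w i) * (2 * q i + ε i * (t i - t' i)) +
      d i * (2 * ε i * x i + ε i ^ 3 * (t i + t' i)) +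
      ε i * (r i * (y i + ε i * x i + ε i ^ 2 * q i + ε i ^ 3 * t i) -
        r' i * (-y i + ε i * x i - ε i ^ 2 * q i + ε i ^ 3 * t' i)) +
      α * (2 * d2 i + ε i * (s i - s' i)) + β * (2 * ε i * d i + ε i ^ 2 * (r i - r' i)) +
      β' * (ε i * (v i - v' i)) := by
    repeat' first | assumption | exact Br.const _ | apply Br.add | apply Br.sub | apply Br.mul |
      apply Br.neg | apply Br.pow
  obtain ⟨M1, hM1⟩ := B1
  have B2 : Br fun i => ((t i + t' i) + w i * ε i * (t i + t' i) +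
      d i * (2 * q i + ε i * (t i - t' i)) * ε i +
      (r i * (y i + ε i * x i + ε i ^ 2 * q i + ε i ^ 3 * t i) +
        r' i * (-y i + ε i * x i - ε i ^ 2 * q i + ε i ^ 3 * t' i)) +
      α * (s i + s' i) + β * (ε i * (r i + r' i)) + β' * (v i + v' i)) / 2 := by
    simp only [div_eq_mul_inv]
    repeat' first | assumption | exact Br.const _ | apply Br.add | apply Br.sub | apply Br.mul |
      apply Br.neg | apply Br.pow
  obtain ⟨M2, hM2⟩ := B2
  obtain ⟨M3, hM3⟩ := bd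
  refine ⟨M1 + M1 * M3 + M2, fun i => ?_⟩
  obtain ⟨e0, e1⟩ := hε i
  have k1 := hM1 i
  have k2 := hM2 i
  have k3 := hM3 i
  have k4 := hw i
  have g1 := h1 i
  have g2 := h2 i
  have n1 : 0 ≤ M1 := (abs_nonneg _).trans k1
  have n2 : 0 ≤ M2 := (abs_nonneg _).trans k2
  have n3 : 0 ≤ M3 := (abs_nonneg _).trans k3
  have hy : |y i| ≤ M1 * ε i ^ 2 := by
    have e2 : 2 * (1 + ε i * w i) * y i = -(ε i ^ 2 * ((1 + ε i * w i) * (2 * q i + ε i * (t i - t' i)) +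
      d i * (2 * ε i * x i + ε i ^ 3 * (t i + t' i)) +
      ε i * (r i * (y i + ε i * x i + ε i ^ 2 * q i + ε i ^ 3 * t i) -
        r' i * (-y i + ε i * x i - ε i ^ 2 * q i + ε i ^ 3 * t' i)) +
      α * (2 * d2 i + ε i * (s i - s' i)) + β * (2 * ε i * d i + ε i ^ 2 * (r i - r' i)) +
      β' * (ε i * (v i - v' i)))) := by
      linear_combination g1 - g2
    have e3 : |2 * (1 + ε i * w i) * y i| ≤ ε i ^ 2 * M1 := by
      rw [e2, abs_neg, abs_mul, abs_of_pos (by positivity : (0 : ℝ) < ε i ^ 2)]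
      exact mul_le_mul_of_nonneg_left k1 (by positivity)
    rw [abs_mul] at e3
    have e4 : 1 ≤ |2 * (1 + ε i * w i)| := by
      have := abs_le.mp k4
      refine le_trans ?_ (le_abs_self _)
      nlinarith
    calc |y i| = 1 * |y i| := (one_mul _).symm
      _ ≤ |2 * (1 + ε i * w i)| * |y i| := by gcongr
      _ ≤ ε i ^ 2 * M1 := e3
      _ = _ := by ring
  have p2 : 0 < ε i ^ 2 := by positivity
  have p3 : 0 < ε i ^ 3 := by positivity
  refine ⟨hy.trans (by nlinarith [mul_nonneg n1 n3]), ?_⟩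
  have e5 : m i - ε i * (x i + α * p i) - ε i ^ 2 * (w i * x i + β * w i + β' * W i) =
      ε i ^ 2 * (d i * y i) + ε i ^ 3 * (((t i + t' i) + w i * ε i * (t i + t' i) +
      d i * (2 * q i + ε i * (t i - t' i)) * ε i +
      (r i * (y i + ε i * x i + ε i ^ 2 * q i + ε i ^ 3 * t i) +
        r' i * (-y i + ε i * x i - ε i ^ 2 * q i + ε i ^ 3 * t' i)) +
      α * (s i + s' i) + β * (ε i * (r i + r' i)) + β' * (v i + v' i)) / 2) := by
    linear_combination (-1 / 2) * g1 - 1 / 2 * g2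
  rw [e5]
  have e6 : |ε i ^ 2 * (d i * y i)| ≤ ε i ^ 3 * (M1 * M3) := by
    rw [abs_mul, abs_mul, abs_of_pos p2]
    have e7 : |d i| * |y i| ≤ M3 * (M1 * ε i ^ 2) := mul_le_mul k3 hy (abs_nonneg _) n3
    have e8 : M3 * (M1 * ε i ^ 2) ≤ ε i * (M1 * M3) := by
      have : ε i ^ 2 ≤ ε i := by nlinarith
      nlinarith [mul_nonneg n1 n3]
    calc ε i ^ 2 * (|d i| * |y i|) ≤ ε i ^ 2 * (ε i * (M1 * M3)) :=
          mul_le_mul_of_nonneg_left (e7.trans e8) p2.le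
      _ = _ := by ring
  refine (abs_add_le _ _).trans ?_
  rw [abs_mul (ε i ^ 3), abs_of_pos p3]
  have e9 := mul_le_mul_of_nonneg_left k2 p3.le
  nlinarith [mul_nonneg n1 p3.le]

/-- The function near the unit circle, up to an additive constant. -/
noncomputable def F (k : ℕ) (α β β' ε : ℝ) (z : ℂ) : ℝ :=
  (1 + ε * (z ^ (2 * k)).im) * (-(normSq z - 1) + ε * (z ^ k).re) +
    ε ^ 2 * (α * (z ^ (2 * k)).re) + ε ^ 3 * (β * (z ^ (2 * k)).im + β' * (z ^ (4 * k)).im)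

/-- The second order part at the end point `e` for the centre `ε g`. -/
noncomputable def xx (k : ℕ) (g e : ℂ) : ℝ := -normSq g + ((k : ℂ) * e ^ (k - 1) * g).re

theorem core (k : ℕ) (hk : Odd k) (α β β' : ℝ) (ε μ : ι → ℝ) (g e : ι → ℂ)
    (hε : ∀ i, 0 < ε i ∧ ε i ≤ 1 / 2) (bg : Bd g) (he : ∀ i, ‖e i‖ = 1)
    (h1 : ∀ i, F k α β β' (ε i) (ε i * g i + e i) = μ i)
    (h2 : ∀ i, F k α β β' (ε i) (ε i * g i - e i) = μ i) :
    ∃ M : ℝ, ∀ i, |-2 * (g i * (starRingEnd ℂ) (e i)).re + (e i ^ k).re| ≤ M * ε i ^ 2 ∧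
      |μ i / ε i - ε i * (xx k (g i) (e i) + α * (e i ^ (2 * k)).re) -
        ε i ^ 2 * ((e i ^ (2 * k)).im * xx k (g i) (e i) + β * (e i ^ (2 * k)).im +
          β' * (e i ^ (4 * k)).im)| ≤ M * ε i ^ 3 := by
  have be : Bd e := ⟨1, fun i => (he i).le⟩
  have bε : Br ε := ⟨1 / 2, fun i => by rw [abs_of_pos (hε i).1]; exact (hε i).2⟩
  have bx : Bd fun i => (ε i : ℂ) * g i := bε.ofReal.mul bg
  have bx' : Bd fun i => -((ε i : ℂ) * g i) := bx.neg
  have h2k : Even (2 * k) := even_two_mul k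
  have h4k : Even (4 * k) := (by decide : Even 4).mul_right k
  have bT : ∀ n, Bd fun i => g i ^ 3 * T3 n (e i) (ε i * g i) := fun n =>
    (bg.pow 3).mul (Bd.T3 be bx n)
  have bT' : ∀ n, Bd fun i => g i ^ 3 * T3 n (e i) (-(ε i * g i)) := fun n =>
    (bg.pow 3).mul (Bd.T3 be bx' n)
  have bC : ∀ n, Bd fun i => C2 n (e i) * g i ^ 2 := fun n => (Bd.C2 be n).mul (bg.pow 2)
  have bD : ∀ n : ℕ, Bd fun i => (n : ℂ) * e i ^ (n - 1) * g i := fun n =>
    ((Bd.const _).mul (be.pow _)).mul bg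
  have bxx : Br fun i => xx k (g i) (e i) := by
    unfold xx
    exact bg.normSq.neg.add (bD k).re
  refine real_core α β β' ε
    (fun i => -2 * (g i * (starRingEnd ℂ) (e i)).re + (e i ^ k).re)
    (fun i => xx k (g i) (e i)) (fun i => (C2 k (e i) * g i ^ 2).re)
    (fun i => (g i ^ 3 * T3 k (e i) (ε i * g i)).re)
    (fun i => (g i ^ 3 * T3 k (e i) (-(ε i * g i))).re)
    (fun i => (e i ^ (2 * k)).im)
    (fun i => (((2 * k : ℕ) : ℂ) * e i ^ (2 * k - 1) * g i).im)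
    (fun i => (C2 (2 * k) (e i) * g i ^ 2).im + ε i * (g i ^ 3 * T3 (2 * k) (e i) (ε i * g i)).im)
    (fun i => (C2 (2 * k) (e i) * g i ^ 2).im -
      ε i * (g i ^ 3 * T3 (2 * k) (e i) (-(ε i * g i))).im)
    (fun i => (e i ^ (2 * k)).re)
    (fun i => (((2 * k : ℕ) : ℂ) * e i ^ (2 * k - 1) * g i).re)
    (fun i => (C2 (2 * k) (e i) * g i ^ 2).re + ε i * (g i ^ 3 * T3 (2 * k) (e i) (ε i * g i)).re)
    (fun i => (C2 (2 * k) (e i) * g i ^ 2).re -
      ε i * (g i ^ 3 * T3 (2 * k) (e i) (-(ε i * g i))).re)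
    (fun i => (e i ^ (4 * k)).im)
    (fun i => (((4 * k : ℕ) : ℂ) * e i ^ (4 * k - 1) * g i).im +
      (ε i * (C2 (4 * k) (e i) * g i ^ 2).im +
        ε i ^ 2 * (g i ^ 3 * T3 (4 * k) (e i) (ε i * g i)).im))
    (fun i => -(((4 * k : ℕ) : ℂ) * e i ^ (4 * k - 1) * g i).im +
      (ε i * (C2 (4 * k) (e i) * g i ^ 2).im -
        ε i ^ 2 * (g i ^ 3 * T3 (4 * k) (e i) (-(ε i * g i))).im))
    (fun i => μ i / ε i) hε ?_ ?_ bxx (bC k).re (bT k).re (bT' k).re (bD _).im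
    ((bC _).im.add (bε.mul (bT _).im)) ((bC _).im.sub (bε.mul (bT' _).im)) (be.pow _).re (bD _).re
    ((bC _).re.add (bε.mul (bT _).re)) ((bC _).re.sub (bε.mul (bT' _).re)) (be.pow _).im
    ((bD _).im.add ((bε.mul (bC _).im).add ((bε.pow 2).mul (bT _).im)))
    ((bD _).im.neg.add ((bε.mul (bC _).im).sub ((bε.pow 2).mul (bT' _).im))) ?_ ?_
  · intro i
    refine (abs_im_le_norm _).trans ?_
    rw [norm_pow, he, one_pow]
  · exact ((Br.const _).mul (bg.mul be.conj).re).add (be.pow _).re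
  · intro i
    have hε0 := (hε i).1.ne'
    rw [eq_div_iff hε0, ← h1 i, F, expP, expP, expP, normSq_add, normSq_mul, normSq_ofReal,
      normSq_eq_norm_sq (e i), he i, mul_assoc (ε i : ℂ) (g i), re_ofReal_mul]
    simp only [add_re, add_im, re_ofReal_mul, im_ofReal_mul, xx]
    ring
  · intro i
    have hε0 := (hε i).1.ne'
    rw [eq_div_iff hε0, ← h2 i, F, expE _ h2k, expE _ h4k, expO _ hk, normSq_sub, normSq_mul,
      normSq_ofReal, normSq_eq_norm_sq (e i), he i, mul_assoc (ε i : ℂ) (g i), re_ofReal_mul]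
    simp only [add_re, add_im, sub_re, sub_im, neg_re, re_ofReal_mul, im_ofReal_mul, xx]
    ring

end Pool.Agent.Y607.RT
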