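import Pool.Agent.Y607.RT.Coef

/-!
# The function on the whole plane
-/

namespace Pool.Agent.Y607.RT

open Complex

/-- The cutoff. -/
noncomputable def cut (η : ℝ) (z : ℂ) : ℝ := max 0 (min 1 (2 - 2 * |normSq z - 1| / η))

/-- The function on the whole plane. -/
noncomputable def f (k : ℕ) (α β β' ρ η ε : ℝ) (z : ℂ) : ℝ :=
  max 0 (ρ ^ 2 - normSq z) + cut η z * (F k α β β' ε z + (normSq z - 1))

theorem f_cont (k : ℕ) (α β β' ρ η ε : ℝ) : Continuous (f k α β β' ρ η ε) := by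
  unfold f cut F
  have h1 : Continuous fun z : ℂ => normSq z := continuous_normSq
  fun_prop

theorem cut_nonneg (η : ℝ) (z : ℂ) : 0 ≤ cut η z := le_max_left _ _

theorem cut_le (η : ℝ) (z : ℂ) : cut η z ≤ 1 := max_le (by norm_num) (min_le_left _ _)

theorem cut_zero {η : ℝ} (hη : 0 < η) {z : ℂ} (h : η ≤ |normSq z - 1|) : cut η z = 0 := by
  unfold cut
  apply max_eq_left
  refine (min_le_right _ _).trans ?_
  have : 2 ≤ 2 * |normSq z - 1| / η := by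
    rw [le_div_iff₀ hη]; linarith
  linarith

theorem cut_one {η : ℝ} (hη : 0 < η) {z : ℂ} (h : |normSq z - 1| ≤ η / 2) : cut η z = 1 := by
  unfold cut
  have : 2 * |normSq z - 1| / η ≤ 1 := by
    rw [div_le_one hη]; linarith
  rw [min_eq_left (by linarith)]
  norm_num

theorem F_bound (k : ℕ) (α β β' : ℝ) : ∃ C : ℝ, 0 < C ∧ ∀ ε : ℝ, 0 < ε → ε ≤ 1 / 2 → ∀ z : ℂ,
    normSq z ≤ 3 / 2 → |F k α β β' ε z + (normSq z - 1)| ≤ C * ε := by
  let J := {x : ℝ × ℂ // (0 < x.1 ∧ x.1 ≤ 1 / 2) ∧ ‖x.2‖ ≤ 2}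
  have bz : Bd fun i : J => i.1.2 := ⟨2, fun i => i.2.2⟩
  have bε : Br fun i : J => i.1.1 := ⟨1 / 2, fun i => by rw [abs_of_pos i.2.1.1]; exact i.2.1.2⟩
  have b1 : Br fun i : J => (i.1.2 ^ (2 * k)).im := (bz.pow _).im
  have b2 : Br fun i : J => (i.1.2 ^ (2 * k)).re := (bz.pow _).re
  have b3 : Br fun i : J => (i.1.2 ^ k).re := (bz.pow _).re
  have b4 : Br fun i : J => (i.1.2 ^ (4 * k)).im := (bz.pow _).im
  have b5 : Br fun i : J => normSq i.1.2 := bz.normSq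
  have B : Br fun i : J => -((i.1.2 ^ (2 * k)).im * (normSq i.1.2 - 1)) +
      (1 + i.1.1 * (i.1.2 ^ (2 * k)).im) * (i.1.2 ^ k).re + i.1.1 * (α * (i.1.2 ^ (2 * k)).re) +
      i.1.1 ^ 2 * (β * (i.1.2 ^ (2 * k)).im + β' * (i.1.2 ^ (4 * k)).im) := by
    repeat' first | assumption | exact Br.const _ | apply Br.add | apply Br.sub | apply Br.mul |
      apply Br.neg | apply Br.pow
  obtain ⟨M, hM⟩ := B
  refine ⟨max M 1, by positivity, fun ε h0 h1 z hz => ?_⟩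
  have hz2 : ‖z‖ ≤ 2 := by
    rw [normSq_eq_norm_sq] at hz
    nlinarith [norm_nonneg z]
  have h := hM ⟨(ε, z), ⟨h0, h1⟩, hz2⟩
  have e : F k α β β' ε z + (normSq z - 1) = ε * (-((z ^ (2 * k)).im * (normSq z - 1)) +
      (1 + ε * (z ^ (2 * k)).im) * (z ^ k).re + ε * (α * (z ^ (2 * k)).re) +
      ε ^ 2 * (β * (z ^ (2 * k)).im + β' * (z ^ (4 * k)).im)) := by
    unfold F
    ring
  rw [e, abs_mul, abs_of_pos h0, mul_comm]
  exact mul_le_mul_of_nonneg_right (h.trans (le_max_left _ _)) h0.le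

theorem f_close {k : ℕ} {α β β' ρ η ε C : ℝ} (hη : 0 < η) (hη2 : η ≤ 1 / 2) (hC : 0 < C)
    (hF : ∀ z : ℂ, normSq z ≤ 3 / 2 → |F k α β β' ε z + (normSq z - 1)| ≤ C * ε) (hε : 0 < ε)
    (z : ℂ) : |f k α β β' ρ η ε z - max 0 (ρ ^ 2 - normSq z)| ≤ C * ε := by
  have e : f k α β β' ρ η ε z - max 0 (ρ ^ 2 - normSq z) =
      cut η z * (F k α β β' ε z + (normSq z - 1)) := by unfold f; ring
  rw [e]
  by_cases h : η ≤ |normSq z - 1|
  · rw [cut_zero hη h, zero_mul, abs_zero]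
    positivity
  · push Not at h
    have h1 := (abs_lt.mp h).2
    rw [abs_mul, abs_of_nonneg (cut_nonneg η z)]
    calc cut η z * |F k α β β' ε z + (normSq z - 1)| ≤ 1 * (C * ε) :=
          mul_le_mul (cut_le η z) (hF z (by linarith)) (abs_nonneg _) zero_le_one
      _ = _ := one_mul _

theorem f_zero {k : ℕ} {α β β' ρ η ε : ℝ} (hη : 0 < η) (hη2 : 1 + η ≤ ρ ^ 2) {z : ℂ}
    (h : ρ ^ 2 ≤ normSq z) : f k α β β' ρ η ε z = 0 := by
  unfold f
  rw [cut_zero hη ((by linarith : η ≤ normSq z - 1).trans (le_abs_self _)), zero_mul, add_zero,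
    max_eq_left (by linarith)]

theorem f_pos {k : ℕ} {α β β' ρ η ε C : ℝ} (hη : 0 < η) (hη2 : η ≤ 1 / 2) (hC : 0 < C)
    (hF : ∀ z : ℂ, normSq z ≤ 3 / 2 → |F k α β β' ε z + (normSq z - 1)| ≤ C * ε) (hε : 0 < ε)
    (hρ : 1 + η + C * ε < ρ ^ 2) {z : ℂ} (h : normSq z < ρ ^ 2) : 0 < f k α β β' ρ η ε z := by
  by_cases h1 : η ≤ |normSq z - 1|
  · unfold f
    rw [cut_zero hη h1, zero_mul, add_zero, max_eq_right (by linarith)]
    linarith
  · push Not at h1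
    have h2 := (abs_le.mp (f_close (ρ := ρ) hη hη2 hC hF hε z)).1
    rw [max_eq_right (by linarith)] at h2
    have := (abs_lt.mp h1).2
    linarith

theorem nsq_add (c e : ℂ) (he : ‖e‖ = 1) :
    normSq (c + e) = normSq c + 1 + 2 * (c * (starRingEnd ℂ) e).re := by
  rw [normSq_add, normSq_eq_norm_sq e, he]; ring

theorem nsq_sub (c e : ℂ) (he : ‖e‖ = 1) :
    normSq (c - e) = normSq c + 1 - 2 * (c * (starRingEnd ℂ) e).re := by
  rw [normSq_sub, normSq_eq_norm_sq e, he]; ring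

/-- A rectangle with centre inside the circle of radius `ρ` has a vertex inside. -/
theorem inside (t ρ : ℝ) (h0 : 0 < t) (h1 : t < Real.pi / 4) (hρ : 1 < ρ)
    (hρ2 : 1 ≤ 2 * ρ * Real.sin t) (c : ℂ) (ν : ℝ) (hc : normSq c < ρ ^ 2)
    (g1 : ρ ^ 2 ≤ normSq (c + E (ν + t))) (g2 : ρ ^ 2 ≤ normSq (c - E (ν + t)))
    (g3 : ρ ^ 2 ≤ normSq (c + E (ν + -t))) (g4 : ρ ^ 2 ≤ normSq (c - E (ν + -t))) : False := by
  have hπ := Real.pi_pos
  have hs : 0 < Real.sin t := Real.sin_pos_of_pos_of_lt_pi h0 (by linarith)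
  have hcs : Real.sin t ≤ Real.cos t := by
    rw [← Real.sin_pi_div_two_sub]
    exact Real.sin_le_sin_of_le_of_le_pi_div_two (by linarith) (by linarith) (by linarith)
  obtain ⟨D, hD⟩ : ∃ D, D = c * (starRingEnd ℂ) (E ν) := ⟨_, rfl⟩
  have e0 : E ν * (starRingEnd ℂ) (E ν) = 1 := by
    rw [E_conj, ← E_add, add_neg_cancel]
    apply Complex.ext
    · rw [E_re]; simp
    · rw [E_im]; simp
  have hcD : c = E ν * ⟨D.re, D.im⟩ := by
    have : (⟨D.re, D.im⟩ : ℂ) = D := rfl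
    rw [this, hD]
    linear_combination (-c) * e0
  have hn : normSq c = D.re ^ 2 + D.im ^ 2 := by
    rw [hcD, normSq_mul, normSq_eq_norm_sq (E ν), E_norm, normSq_mk]; ring
  have r1 : (c * (starRingEnd ℂ) (E (ν + t))).re = D.re * Real.cos t + D.im * Real.sin t := by
    rw [hcD, gam_re]
  have r2 : (c * (starRingEnd ℂ) (E (ν + -t))).re = D.re * Real.cos t - D.im * Real.sin t := by
    rw [hcD, gam_re, Real.cos_neg, Real.sin_neg]; ring
  rw [nsq_add _ _ (E_norm _), r1] at g1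
  rw [nsq_sub _ _ (E_norm _), r1] at g2
  rw [nsq_add _ _ (E_norm _), r2] at g3
  rw [nsq_sub _ _ (E_norm _), r2] at g4
  rw [hn] at hc g1 g2 g3 g4
  have k1 : |D.re| * Real.cos t + |D.im| * Real.sin t ≤ (D.re ^ 2 + D.im ^ 2 + 1 - ρ ^ 2) / 2 := by
    rcases abs_cases D.re with ⟨ha, _⟩ | ⟨ha, _⟩ <;> rcases abs_cases D.im with ⟨hb, _⟩ | ⟨hb, _⟩ <;>
      rw [ha, hb] <;> linarith
  have k2 : (|D.re| + |D.im|) * Real.sin t ≤ |D.re| * Real.cos t + |D.im| * Real.sin t := by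
    have := mul_le_mul_of_nonneg_left hcs (abs_nonneg D.re)
    linarith
  obtain ⟨r, hr⟩ : ∃ r, r = ‖D‖ := ⟨_, rfl⟩
  have hr0 : 0 ≤ r := by rw [hr]; exact norm_nonneg _
  have hr1 : r ≤ |D.re| + |D.im| := by rw [hr]; exact norm_le_abs_re_add_abs_im D
  have hr2 : r ^ 2 = D.re ^ 2 + D.im ^ 2 := by
    rw [hr, ← normSq_eq_norm_sq, normSq_apply]; ring
  rw [← hr2] at hc k1
  have hrρ : r < ρ := by nlinarith
  have k3 : r * Real.sin t ≤ (r ^ 2 + 1 - ρ ^ 2) / 2 :=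
    (mul_le_mul_of_nonneg_right hr1 hs.le).trans (k2.trans k1)
  have k4 : r * 1 ≤ r * (2 * ρ * Real.sin t) := mul_le_mul_of_nonneg_left hρ2 hr0
  -- `r ≤ 2 ρ r sin t ≤ ρ (r² + 1 - ρ²)`
  have k5 : ρ * (r * Real.sin t) ≤ ρ * ((r ^ 2 + 1 - ρ ^ 2) / 2) :=
    mul_le_mul_of_nonneg_left k3 (by linarith)
  have k6 : r ≤ ρ * (r ^ 2 + 1 - ρ ^ 2) := by linarith
  have k7 : 0 < (ρ - r) * (ρ * (ρ + r) - 1) := by
    refine mul_pos (by linarith) ?_
    nlinarith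
  nlinarith

/-- **Main theorem at unit scale.** -/
theorem unit (t ρ : ℝ) (h0 : 0 < t) (h1 : t < Real.pi / 4) (h6 : t ≠ Real.pi / 6) (hρ : 1 < ρ)
    (hρ2 : 1 ≤ 2 * ρ * Real.sin t) :
    ∃ φ : ℂ → ℝ, Continuous φ ∧ (∀ z, 0 ≤ φ z) ∧ (∀ z, ρ ^ 2 ≤ normSq z → φ z = 0) ∧
      ∀ (c : ℂ) (ν lam : ℝ), normSq c < ρ ^ 2 → φ (c + E (ν + t)) = lam → φ (c - E (ν + t)) = lam →
        φ (c + E (ν + -t)) = lam → φ (c - E (ν + -t)) = lam → False := by
  have hπ := Real.pi_pos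
  have hs : 0 < Real.sin t := Real.sin_pos_of_pos_of_lt_pi h0 (by linarith)
  have hcos : 0 < Real.cos t := Real.cos_pos_of_mem_Ioo ⟨by linarith, by linarith⟩
  obtain ⟨k, hk, a, b, α, β, β', D0, ha, hb, hα, hβ, hβ', hD, hD0⟩ := coef t h0 h1 h6
  obtain ⟨C, hC, hF⟩ := F_bound k α β β'
  have hρ1 : 1 < ρ ^ 2 := by nlinarith
  obtain ⟨η, hη⟩ : ∃ η, η = min ((ρ ^ 2 - 1) / 2) (1 / 2) := ⟨_, rfl⟩
  have hη0 : 0 < η := by rw [hη]; exact lt_min (by linarith) (by norm_num)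
  have hη1 : η ≤ 1 / 2 := by rw [hη]; exact min_le_right _ _
  have hη2 : η ≤ (ρ ^ 2 - 1) / 2 := by rw [hη]; exact min_le_left _ _
  obtain ⟨K, hK⟩ : ∃ K, K = C / 2 * (1 / |Real.cos t| + 1 / |Real.sin t|) := ⟨_, rfl⟩
  have hK0 : 0 < K := by
    rw [hK]
    have : 0 < |Real.cos t| := abs_pos.mpr hcos.ne'
    positivity
  -- the range of `ε`
  obtain ⟨ε₁, hε₁⟩ : ∃ ε₁ : ℝ, ε₁ = min (1 / 2) (η / (2 * (K ^ 2 + C))) := ⟨_, rfl⟩
  have hε₁0 : 0 < ε₁ := by rw [hε₁]; exact lt_min (by norm_num) (by positivity)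
  have hsmall : ∀ ε, 0 < ε → ε ≤ ε₁ → ε ≤ 1 / 2 ∧ (K ^ 2 + C) * ε ≤ η / 2 := by
    intro ε e0 e1
    rw [hε₁] at e1
    refine ⟨e1.trans (min_le_left _ _), ?_⟩
    have := e1.trans (min_le_right _ _)
    rw [le_div_iff₀ (by positivity)] at this
    linarith
  by_contra hcon
  push Not at hcon
  have key : ∀ ε, 0 < ε → ε ≤ ε₁ → ∃ (c : ℂ) (ν μ : ℝ), ‖c‖ ≤ K * ε ∧
      F k α β β' ε (c + E (ν + t)) = μ ∧ F k α β β' ε (c - E (ν + t)) = μ ∧
      F k α β β' ε (c + E (ν + -t)) = μ ∧ F k α β β' ε (c - E (ν + -t)) = μ := by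
    intro ε e0 e1
    obtain ⟨e2, e3⟩ := hsmall ε e0 e1
    have hF' := hF ε e0 e2
    have hCε : C * ε ≤ η / 2 := by nlinarith [mul_nonneg (sq_nonneg K) e0.le]
    have pos : ∀ {z : ℂ}, normSq z < ρ ^ 2 → 0 < f k α β β' ρ η ε z := fun {z} hz =>
      f_pos hη0 hη1 hC hF' e0 (by linarith) hz
    have zero : ∀ {z : ℂ}, ρ ^ 2 ≤ normSq z → f k α β β' ρ η ε z = 0 := fun {z} hz =>
      f_zero hη0 (by linarith) hz
    obtain ⟨c, ν, lam, hc, q1, q2, q3, q4, -⟩ := hcon (f k α β β' ρ η ε) (f_cont _ _ _ _ _ _ _)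
      (fun z => by
        rcases lt_or_ge (normSq z) (ρ ^ 2) with h | h
        · exact (pos h).le
        · exact (zero h).ge) (fun z hz => zero hz)
    have hlam : 0 < lam := by
      by_contra hh
      have out : ∀ z : ℂ, f k α β β' ρ η ε z = lam → ρ ^ 2 ≤ normSq z := by
        intro z hz
        by_contra h
        have := pos (not_le.mp h)
        linarith
      exact inside t ρ h0 h1 hρ hρ2 c ν hc (out _ q1) (out _ q2) (out _ q3) (out _ q4)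
    have inn : ∀ z : ℂ, f k α β β' ρ η ε z = lam → normSq z < ρ ^ 2 ∧
        |lam - (ρ ^ 2 - normSq z)| ≤ C * ε := by
      intro z hz
      have h : normSq z < ρ ^ 2 := by
        by_contra h
        have := zero (z := z) (not_lt.mp h)
        linarith
      refine ⟨h, ?_⟩
      have h2 := f_close (ρ := ρ) hη0 hη1 hC hF' e0 z
      rw [hz, max_eq_right (by linarith)] at h2
      exact h2
    have n1 := nsq_add c (E (ν + t)) (E_norm _)
    have n2 := nsq_sub c (E (ν + t)) (E_norm _)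
    have n3 := nsq_add c (E (ν + -t)) (E_norm _)
    have n4 := nsq_sub c (E (ν + -t)) (E_norm _)
    have i1 := abs_le.mp (inn _ q1).2
    have i2 := abs_le.mp (inn _ q2).2
    have i3 := abs_le.mp (inn _ q3).2
    have i4 := abs_le.mp (inn _ q4).2
    have a1 : |(c * (starRingEnd ℂ) (E (ν + t))).re| ≤ C * ε / 2 := by
      rw [abs_le]; constructor <;> linarith [i1.1, i1.2, i2.1, i2.2]
    have a2 : |(c * (starRingEnd ℂ) (E (ν + -t))).re| ≤ C * ε / 2 := by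
      rw [abs_le]; constructor <;> linarith [i3.1, i3.2, i4.1, i4.2]
    have hcK : ‖c‖ ≤ K * ε := by
      refine (small c ν t (C * ε / 2) hcos.ne' hs.ne' a1 a2).trans (le_of_eq ?_)
      rw [hK]; ring
    have hcn : normSq c ≤ K ^ 2 * ε := by
      rw [normSq_eq_norm_sq]
      have h2 : ‖c‖ ^ 2 ≤ (K * ε) ^ 2 := pow_le_pow_left₀ (norm_nonneg _) hcK 2
      refine h2.trans ?_
      have : ε ^ 2 ≤ ε := by nlinarith
      nlinarith [mul_le_mul_of_nonneg_left this (sq_nonneg K)]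
    have hc0 := normSq_nonneg c
    have a1' := abs_le.mp a1
    have a2' := abs_le.mp a2
    have val : ∀ z : ℂ, f k α β β' ρ η ε z = lam → |normSq z - 1| ≤ η / 2 →
        F k α β β' ε z = lam - ρ ^ 2 + 1 := by
      intro z hz hz'
      have h := abs_le.mp hz'
      unfold f at hz
      rw [cut_one hη0 hz', max_eq_right (by linarith)] at hz
      linarith
    refine ⟨c, ν, lam - ρ ^ 2 + 1, hcK, val _ q1 ?_, val _ q2 ?_, val _ q3 ?_, val _ q4 ?_⟩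
    · rw [n1, abs_le]; constructor <;> linarith [a1'.1, a1'.2]
    · rw [n2, abs_le]; constructor <;> linarith [a1'.1, a1'.2]
    · rw [n3, abs_le]; constructor <;> linarith [a2'.1, a2'.2]
    · rw [n4, abs_le]; constructor <;> linarith [a2'.1, a2'.2]
  -- a sequence of level rectangles
  have hseq : ∀ n : ℕ, 0 < ε₁ / (n + 1) ∧ ε₁ / (n + 1) ≤ ε₁ := fun n => by
    refine ⟨by positivity, div_le_self hε₁0.le ?_⟩
    have : (0 : ℝ) ≤ n := Nat.cast_nonneg n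
    linarith
  choose c ν μ hc F1 F2 F3 F4 using fun n : ℕ => key (ε₁ / (n + 1)) (hseq n).1 (hseq n).2
  have hg : ∀ n : ℕ, c n = ((ε₁ / (n + 1) : ℝ) : ℂ) * (c n / ((ε₁ / (n + 1) : ℝ) : ℂ)) := fun n => by
    have : ((ε₁ / (n + 1) : ℝ) : ℂ) ≠ 0 := by exact_mod_cast (hseq n).1.ne'
    field_simp
  obtain ⟨M, hM⟩ := near k hk t α β β' a b D0 ha hb hcos.ne' hs.ne' hα hβ hβ' hD
    (fun n : ℕ => ε₁ / (n + 1)) μ ν (fun n : ℕ => c n / ((ε₁ / (n + 1) : ℝ) : ℂ))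
    (fun n => ⟨(hseq n).1, (hsmall _ (hseq n).1 (hseq n).2).1⟩)
    ⟨K, fun n => by
      rw [norm_div, Complex.norm_real, Real.norm_of_nonneg (hseq n).1.le, div_le_iff₀ (hseq n).1]
      exact hc n⟩
    (fun n => by rw [← hg n]; exact F1 n) (fun n => by rw [← hg n]; exact F2 n)
    (fun n => by rw [← hg n]; exact F3 n) (fun n => by rw [← hg n]; exact F4 n)
  have hpos : 0 < |D0| := abs_pos.mpr hD0
  obtain ⟨n, hn⟩ := exists_nat_gt (M * ε₁ / |D0|)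
  have h := hM n
  have hn1 : (0 : ℝ) < n + 1 := by positivity
  rw [← mul_div_assoc, le_div_iff₀ hn1] at h
  rw [div_lt_iff₀ hpos] at hn
  nlinarith

end Pool.Agent.Y607.RT
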