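import Mathlib

/-!
# Trigonometric identities for the level rectangles of a perturbed radial function
-/

namespace Pool.Agent.Y607.RT

open Real

/-- Second order part of the value at a vertex; `ω = 2χ`. -/
noncomputable def xs (a b κ T χ : ℝ) : ℝ :=
  -((a * cos χ) ^ 2 + (b * sin χ) ^ 2) + κ * (a * cos χ * cos (χ + T) + b * sin χ * sin (χ + T))

theorem xs_eq (a b κ T χ : ℝ) : xs a b κ T χ =
    (-(a ^ 2 + b ^ 2) / 2 + κ * (a + b) * cos T / 2) + (-(a ^ 2 - b ^ 2) / 2) * cos (2 * χ) +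
      κ * (a - b) / 2 * cos (2 * χ + T) := by
  unfold xs
  rw [cos_add, sin_add, cos_add, cos_two_mul', sin_two_mul]
  have h := sin_sq_add_cos_sq χ
  linear_combination (-(a ^ 2 + b ^ 2) / 2 + κ * (a + b) * cos T / 2) * h

/-- The second order parts agree at all vertices. -/
theorem second (a b κ T A α χ : ℝ) (hα : 2 * α * sin (2 * A) = -(κ * (a - b) * sin T)) :
    xs a b κ T χ + α * cos (2 * χ + 2 * A) = xs a b κ (-T) χ + α * cos (2 * χ - 2 * A) := by
  unfold xs
  rw [cos_add, sin_add, cos_add, cos_add, sin_add, cos_sub, cos_neg, sin_neg, sin_two_mul]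
  linear_combination (-2 * sin χ * cos χ) * hα

/-- The third order parts differ by a constant. -/
theorem third (a b κ T A β β' χ : ℝ)
    (hβ : β = -(-(a ^ 2 + b ^ 2) / 2 + κ * (a + b) * cos T / 2))
    (hβ' : 2 * β' * sin (4 * A) =
      (a ^ 2 - b ^ 2) / 2 * sin (2 * A) - κ * (a - b) / 2 * sin (2 * A + T)) :
    (sin (2 * χ + 2 * A) * (xs a b κ T χ + β) + β' * sin (4 * χ + 4 * A)) -
      (sin (2 * χ - 2 * A) * (xs a b κ (-T) χ + β) + β' * sin (4 * χ - 4 * A)) =
      (-(a ^ 2 - b ^ 2) / 2) * sin (2 * A) + κ * (a - b) / 2 * sin (2 * A - T) := by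
  rw [xs_eq, xs_eq, hβ]
  rw [show 4 * χ = 2 * (2 * χ) by ring]
  generalize 2 * χ = ω
  have h := sin_sq_add_cos_sq ω
  rw [sin_add (2 * A) T] at hβ'
  rw [sin_add, sin_add, sin_sub, sin_sub, sin_sub, cos_add, cos_add, cos_neg, sin_neg,
    cos_two_mul' ω, sin_two_mul ω]
  linear_combination (cos ω ^ 2 - sin ω ^ 2) * hβ' +
    ((-(a ^ 2 - b ^ 2) / 2) * sin (2 * A) +
      κ * (a - b) / 2 * (sin (2 * A) * cos T - cos (2 * A) * sin T)) * h

end Pool.Agent.Y607.RT
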