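import Pool.Agent.Y607.RT.Core
import Pool.Agent.Y607.RT.Trig

/-!
# No level rectangle near the unit circle
-/

namespace Pool.Agent.Y607.RT

open Complex

variable {ι : Type*}

/-- The point of the unit circle with argument `x`. -/
noncomputable def E (x : ℝ) : ℂ := Complex.exp (x * Complex.I)

theorem E_re (x : ℝ) : (E x).re = Real.cos x := exp_ofReal_mul_I_re x

theorem E_im (x : ℝ) : (E x).im = Real.sin x := exp_ofReal_mul_I_im x

theorem E_norm (x : ℝ) : ‖E x‖ = 1 := norm_exp_ofReal_mul_I x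

theorem E_add (x y : ℝ) : E (x + y) = E x * E y := by
  unfold E
  rw [← exp_add]
  push_cast
  ring_nf

theorem E_pow (x : ℝ) (n : ℕ) : E x ^ n = E (n * x) := by
  unfold E
  rw [← exp_nat_mul]
  push_cast
  ring_nf

theorem E_conj (x : ℝ) : (starRingEnd ℂ) (E x) = E (-x) := by
  apply Complex.ext
  · rw [conj_re, E_re, E_re, Real.cos_neg]
  · rw [conj_im, E_im, E_im, Real.sin_neg]

theorem gam_re (ν s X Y : ℝ) :
    ((E ν * ⟨X, Y⟩) * (starRingEnd ℂ) (E (ν + s))).re = X * Real.cos s + Y * Real.sin s := by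
  rw [E_conj, mul_right_comm, ← E_add, show ν + -(ν + s) = -s by ring, mul_re, E_re, E_im,
    Real.cos_neg, Real.sin_neg]
  ring

theorem gam_pow (k : ℕ) (hk : 1 ≤ k) (ν s X Y : ℝ) :
    ((k : ℂ) * E (ν + s) ^ (k - 1) * (E ν * ⟨X, Y⟩)).re =
      k * (X * Real.cos (k * ν + (k - 1) * s) - Y * Real.sin (k * ν + (k - 1) * s)) := by
  have h : (k : ℂ) * E (ν + s) ^ (k - 1) * (E ν * ⟨X, Y⟩) =
      ((k : ℝ) : ℂ) * (E (k * ν + (k - 1) * s) * ⟨X, Y⟩) := by
    rw [E_pow, show (k : ℝ) * ν + (k - 1) * s = ((k - 1 : ℕ) : ℝ) * (ν + s) + ν by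
      rw [Nat.cast_sub hk]; push_cast; ring, E_add]
    push_cast
    ring
  rw [h, re_ofReal_mul, mul_re, E_re, E_im]
  ring

/-- A vector with small components along the two diagonals is small. -/
theorem small (δ : ℂ) (ν t r : ℝ) (hc : Real.cos t ≠ 0) (hs : Real.sin t ≠ 0)
    (h1 : |(δ * (starRingEnd ℂ) (E (ν + t))).re| ≤ r)
    (h2 : |(δ * (starRingEnd ℂ) (E (ν + -t))).re| ≤ r) :
    ‖δ‖ ≤ r * (1 / |Real.cos t| + 1 / |Real.sin t|) := by
  obtain ⟨D, hD⟩ : ∃ D, D = δ * (starRingEnd ℂ) (E ν) := ⟨_, rfl⟩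
  have h0 : E ν * (starRingEnd ℂ) (E ν) = 1 := by
    rw [E_conj, ← E_add, add_neg_cancel]
    apply Complex.ext
    · rw [E_re]; simp
    · rw [E_im]; simp
  have hδ : δ = E ν * ⟨D.re, D.im⟩ := by
    have : (⟨D.re, D.im⟩ : ℂ) = D := rfl
    rw [this, hD]
    linear_combination (-δ) * h0
  rw [hδ, gam_re] at h1 h2
  rw [Real.cos_neg, Real.sin_neg] at h2
  have a1 := abs_le.mp h1
  have a2 := abs_le.mp h2
  have c1 : |D.re * Real.cos t| ≤ r := by
    rw [abs_le]; constructor <;> linarith [a1.1, a1.2, a2.1, a2.2]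
  have c2 : |D.im * Real.sin t| ≤ r := by
    rw [abs_le]; constructor <;> linarith [a1.1, a1.2, a2.1, a2.2]
  rw [abs_mul] at c1 c2
  have p1 : 0 < |Real.cos t| := abs_pos.mpr hc
  have p2 : 0 < |Real.sin t| := abs_pos.mpr hs
  have d1 : |D.re| ≤ r * (1 / |Real.cos t|) := by
    rw [mul_one_div, le_div_iff₀ p1]; exact c1
  have d2 : |D.im| ≤ r * (1 / |Real.sin t|) := by
    rw [mul_one_div, le_div_iff₀ p2]; exact c2
  have d3 : ‖δ‖ = ‖D‖ := by
    rw [hD, norm_mul, RCLike.norm_conj, E_norm, mul_one]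
  rw [d3, mul_add]
  exact (norm_le_abs_re_add_abs_im D).trans (add_le_add d1 d2)

theorem near (k : ℕ) (hk : Odd k) (t α β β' a b D0 : ℝ) (ha : 2 * a * Real.cos t = Real.cos (k * t))
    (hb : 2 * b * Real.sin t = Real.sin (k * t)) (hc : Real.cos t ≠ 0) (hs : Real.sin t ≠ 0)
    (hα : 2 * α * Real.sin (2 * (k * t)) = -(k * (a - b) * Real.sin ((k - 1) * t)))
    (hβ : β = -(-(a ^ 2 + b ^ 2) / 2 + k * (a + b) * Real.cos ((k - 1) * t) / 2))
    (hβ' : 2 * β' * Real.sin (4 * (k * t)) = (a ^ 2 - b ^ 2) / 2 * Real.sin (2 * (k * t)) -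
      k * (a - b) / 2 * Real.sin (2 * (k * t) + (k - 1) * t))
    (hD : D0 = (-(a ^ 2 - b ^ 2) / 2) * Real.sin (2 * (k * t)) +
      k * (a - b) / 2 * Real.sin (2 * (k * t) - (k - 1) * t))
    (ε μ ν : ι → ℝ) (g : ι → ℂ) (hε : ∀ i, 0 < ε i ∧ ε i ≤ 1 / 2) (bg : Bd g)
    (h1 : ∀ i, F k α β β' (ε i) (ε i * g i + E (ν i + t)) = μ i)
    (h2 : ∀ i, F k α β β' (ε i) (ε i * g i - E (ν i + t)) = μ i)
    (h3 : ∀ i, F k α β β' (ε i) (ε i * g i + E (ν i + -t)) = μ i)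
    (h4 : ∀ i, F k α β β' (ε i) (ε i * g i - E (ν i + -t)) = μ i) :
    ∃ M : ℝ, ∀ i, |D0| ≤ M * ε i := by
  obtain ⟨M1, H1⟩ := core k hk α β β' ε μ g (fun i => E (ν i + t)) hε bg (fun i => E_norm _) h1 h2
  obtain ⟨M2, H2⟩ := core k hk α β β' ε μ g (fun i => E (ν i + -t)) hε bg (fun i => E_norm _) h3 h4
  obtain ⟨K, hK⟩ := bg
  have hk1 : 1 ≤ k := hk.pos
  obtain ⟨γ, hγ⟩ : ∃ γ : ι → ℂ, γ = fun i => E (ν i) * ⟨a * Real.cos (k * ν i), -(b * Real.sin (k * ν i))⟩ :=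
    ⟨_, rfl⟩
  obtain ⟨C, hC⟩ : ∃ C, C = 1 / |Real.cos t| + 1 / |Real.sin t| := ⟨_, rfl⟩
  have hC0 : 0 ≤ C := by rw [hC]; positivity
  -- exactness of `γ`
  have ex : ∀ i, 2 * (γ i * (starRingEnd ℂ) (E (ν i + t))).re = (E (ν i + t) ^ k).re := by
    intro i
    rw [hγ, gam_re, E_pow, E_re, mul_add (k : ℝ), Real.cos_add]
    linear_combination Real.cos (k * ν i) * ha - Real.sin (k * ν i) * hb
  have ex' : ∀ i, 2 * (γ i * (starRingEnd ℂ) (E (ν i + -t))).re = (E (ν i + -t) ^ k).re := by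
    intro i
    rw [hγ, gam_re, E_pow, E_re, mul_add (k : ℝ), Real.cos_add, mul_neg (k : ℝ), Real.cos_neg, Real.sin_neg,
      Real.cos_neg, Real.sin_neg]
    linear_combination Real.cos (k * ν i) * ha + Real.sin (k * ν i) * hb
  -- `g` is close to `γ`
  obtain ⟨M, hM⟩ : ∃ M, M = max M1 M2 := ⟨_, rfl⟩
  have hM1 : M1 ≤ M := by rw [hM]; exact le_max_left _ _
  have hM2 : M2 ≤ M := by rw [hM]; exact le_max_right _ _
  have hδ : ∀ i, ‖g i - γ i‖ ≤ M * C * ε i ^ 2 := by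
    intro i
    have p2 : 0 ≤ ε i ^ 2 := by positivity
    have q1 := (H1 i).1
    have q2 := (H2 i).1
    have := small (g i - γ i) (ν i) t (M * ε i ^ 2) hc hs (by
      rw [sub_mul, sub_re]
      have e1 := ex i
      have a1 := abs_le.mp (q1.trans (mul_le_mul_of_nonneg_right hM1 p2))
      have p3 := (abs_nonneg _).trans (q1.trans (mul_le_mul_of_nonneg_right hM1 p2))
      rw [abs_le]
      constructor <;> linarith [a1.1, a1.2]) (by
      rw [sub_mul, sub_re]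
      have e1 := ex' i
      have a1 := abs_le.mp (q2.trans (mul_le_mul_of_nonneg_right hM2 p2))
      have p3 := (abs_nonneg _).trans (q2.trans (mul_le_mul_of_nonneg_right hM2 p2))
      rw [abs_le]
      constructor <;> linarith [a1.1, a1.2])
    rw [hC]
    linarith
  have hγn : ∀ i, ‖γ i‖ ≤ |a| + |b| := by
    intro i
    rw [hγ]
    simp only
    rw [norm_mul, E_norm, one_mul]
    refine (norm_le_abs_re_add_abs_im _).trans (add_le_add ?_ ?_)
    · simp only [abs_mul]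
      exact mul_le_of_le_one_right (abs_nonneg _) (Real.abs_cos_le_one _)
    · simp only [abs_neg, abs_mul]
      exact mul_le_of_le_one_right (abs_nonneg _) (Real.abs_sin_le_one _)
  obtain ⟨L, hL⟩ : ∃ L, L = M * C * (K + (|a| + |b|) + k) := ⟨_, rfl⟩
  have hx : ∀ i, ∀ s : ℝ, |xx k (g i) (E (ν i + s)) - xx k (γ i) (E (ν i + s))| ≤ L * ε i ^ 2 := by
    intro i s
    have e1 : xx k (g i) (E (ν i + s)) - xx k (γ i) (E (ν i + s)) =
        ((k : ℂ) * E (ν i + s) ^ (k - 1) * (g i - γ i)).re -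
          (‖g i‖ - ‖γ i‖) * (‖g i‖ + ‖γ i‖) := by
      unfold xx
      rw [normSq_eq_norm_sq, normSq_eq_norm_sq, mul_sub, sub_re]
      ring
    have e2 : |((k : ℂ) * E (ν i + s) ^ (k - 1) * (g i - γ i)).re| ≤ k * (M * C * ε i ^ 2) := by
      refine (abs_re_le_norm _).trans ?_
      rw [norm_mul, norm_mul, norm_pow, E_norm, one_pow, mul_one, Complex.norm_natCast]
      exact mul_le_mul_of_nonneg_left (hδ i) (Nat.cast_nonneg _)
    have e3 : |(‖g i‖ - ‖γ i‖) * (‖g i‖ + ‖γ i‖)| ≤ M * C * ε i ^ 2 * (K + (|a| + |b|)) := by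
      rw [abs_mul]
      refine mul_le_mul ((abs_norm_sub_norm_le _ _).trans (hδ i)) ?_ (abs_nonneg _)
        ((norm_nonneg _).trans (hδ i))
      rw [abs_of_nonneg (by positivity)]
      exact add_le_add (hK i) (hγn i)
    rw [e1, hL]
    refine (abs_sub _ _).trans ((add_le_add e2 e3).trans (le_of_eq ?_))
    ring
  -- the values at `γ`
  have v1 : ∀ i, xx k (γ i) (E (ν i + t)) = xs a b k ((k - 1) * t) (k * ν i) := by
    intro i
    rw [xx, hγ, gam_pow k hk1, normSq_mul, normSq_eq_norm_sq (E (ν i)), E_norm, normSq_mk, xs]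
    ring
  have v2 : ∀ i, xx k (γ i) (E (ν i + -t)) = xs a b k (-((k - 1) * t)) (k * ν i) := by
    intro i
    rw [xx, hγ, gam_pow k hk1, normSq_mul, normSq_eq_norm_sq (E (ν i)), E_norm, normSq_mk, xs,
      mul_neg]
    ring
  refine ⟨2 * (M + 3 * (1 + |α|) * L), fun i => ?_⟩
  obtain ⟨e0, e1⟩ := hε i
  have p2 : 0 < ε i ^ 2 := by positivity
  have p3 : 0 < ε i ^ 3 := by positivity
  have hL0 : 0 ≤ L * ε i ^ 2 := (abs_nonneg _).trans (hx i 0)
  have hL1 : 0 ≤ L := by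
    by_contra hh
    push Not at hh
    nlinarith
  -- one side
  have side : ∀ s p w W : ℝ, |w| ≤ 1 → ∀ N ≤ M,
      |μ i / ε i - ε i * (xx k (g i) (E (ν i + s)) + α * p) -
        ε i ^ 2 * (w * xx k (g i) (E (ν i + s)) + β * w + β' * W)| ≤ N * ε i ^ 3 →
      |μ i / ε i - ε i * (xx k (γ i) (E (ν i + s)) + α * p) -
        ε i ^ 2 * (w * (xx k (γ i) (E (ν i + s)) + β) + β' * W)| ≤ (M + 2 * L) * ε i ^ 3 := by
    intro s p w W hw N hN hb
    have q := hx i s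
    have r1 : |ε i * (xx k (g i) (E (ν i + s)) - xx k (γ i) (E (ν i + s)))| ≤ L * ε i ^ 3 := by
      rw [abs_mul, abs_of_pos e0]
      calc ε i * |xx k (g i) (E (ν i + s)) - xx k (γ i) (E (ν i + s))| ≤ ε i * (L * ε i ^ 2) :=
            mul_le_mul_of_nonneg_left q e0.le
        _ = _ := by ring
    have r2 : |ε i ^ 2 * (w * (xx k (g i) (E (ν i + s)) - xx k (γ i) (E (ν i + s))))| ≤
        L * ε i ^ 3 := by
      rw [abs_mul, abs_mul, abs_of_pos p2]
      have r3 : |w| * |xx k (g i) (E (ν i + s)) - xx k (γ i) (E (ν i + s))| ≤ 1 * (L * ε i ^ 2) :=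
        mul_le_mul hw q (abs_nonneg _) zero_le_one
      calc ε i ^ 2 * (|w| * |xx k (g i) (E (ν i + s)) - xx k (γ i) (E (ν i + s))|) ≤
            ε i ^ 2 * (1 * (L * ε i ^ 2)) := mul_le_mul_of_nonneg_left r3 p2.le
        _ = L * ε i ^ 3 * ε i := by ring
        _ ≤ L * ε i ^ 3 * 1 := by
            refine mul_le_mul_of_nonneg_left (by linarith) (by positivity)
        _ = _ := by ring
    have r4 : μ i / ε i - ε i * (xx k (γ i) (E (ν i + s)) + α * p) -
        ε i ^ 2 * (w * (xx k (γ i) (E (ν i + s)) + β) + β' * W) =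
        (μ i / ε i - ε i * (xx k (g i) (E (ν i + s)) + α * p) -
        ε i ^ 2 * (w * xx k (g i) (E (ν i + s)) + β * w + β' * W)) +
        (ε i * (xx k (g i) (E (ν i + s)) - xx k (γ i) (E (ν i + s))) +
        ε i ^ 2 * (w * (xx k (g i) (E (ν i + s)) - xx k (γ i) (E (ν i + s))))) := by ring
    rw [r4]
    refine (abs_add_le _ _).trans ((add_le_add hb ((abs_add_le _ _).trans (add_le_add r1 r2))).trans ?_)
    have := mul_le_mul_of_nonneg_right hN p3.le
    linarith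
  have s1 := side t _ _ _ (by
    refine (abs_im_le_norm _).trans ?_
    rw [norm_pow, E_norm, one_pow]) M1 hM1 (H1 i).2
  have s2 := side (-t) _ _ _ (by
    refine (abs_im_le_norm _).trans ?_
    rw [norm_pow, E_norm, one_pow]) M2 hM2 (H2 i).2
  rw [v1] at s1
  rw [v2] at s2
  simp only [E_pow, E_re, E_im] at s1 s2
  have c2 : ((2 * k : ℕ) : ℝ) * (ν i + t) = 2 * (k * ν i) + 2 * (k * t) := by push_cast; ring
  have c2' : ((2 * k : ℕ) : ℝ) * (ν i + -t) = 2 * (k * ν i) - 2 * (k * t) := by push_cast; ring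
  have c4 : ((4 * k : ℕ) : ℝ) * (ν i + t) = 4 * (k * ν i) + 4 * (k * t) := by push_cast; ring
  have c4' : ((4 * k : ℕ) : ℝ) * (ν i + -t) = 4 * (k * ν i) - 4 * (k * t) := by push_cast; ring
  rw [c2, c4] at s1
  rw [c2', c4'] at s2
  have t2 := second a b k ((k - 1) * t) (k * t) α (k * ν i) hα
  have t3 := third a b k ((k - 1) * t) (k * t) β β' (k * ν i) hβ hβ'
  rw [← hD] at t3
  have u1 := abs_le.mp s1
  have u2 := abs_le.mp s2
  have fin : |ε i ^ 2 * D0| ≤ 2 * (M + 2 * L) * ε i ^ 3 := by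
    rw [← t3, abs_le]
    rw [t2] at u1
    constructor <;> nlinarith only [u1.1, u1.2, u2.1, u2.2]
  rw [abs_mul, abs_of_pos p2] at fin
  have fin2 : |D0| ≤ 2 * (M + 2 * L) * ε i := by
    have : ε i ^ 2 * |D0| ≤ ε i ^ 2 * (2 * (M + 2 * L) * ε i) := by
      calc _ ≤ _ := fin
        _ = _ := by ring
    exact le_of_mul_le_mul_left this p2
  refine fin2.trans (mul_le_mul_of_nonneg_right ?_ e0.le)
  nlinarith [abs_nonneg α, mul_nonneg (abs_nonneg α) hL1]

end Pool.Agent.Y607.RT
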