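import Pool.Agent.Y607.RT.Glob

/-!
# Rectangles in the plane
-/

namespace Pool.Agent.Y607.RT

open Complex

/-- The Euclidean plane. -/
abbrev Pl := EuclideanSpace ℝ (Fin 2)

theorem pair (ζ w : ℂ) (t : ℝ) (hζ : ‖ζ‖ = 1) (hw : ‖w‖ = 1)
    (h : (w * (starRingEnd ℂ) ζ).re = Real.cos (2 * t)) :
    ∃ ν, (ζ = E (ν + t) ∧ w = E (ν + -t)) ∨ (ζ = E (ν + -t) ∧ w = E (ν + t)) := by
  obtain ⟨x, hx⟩ : ∃ x, ζ = E x := by
    refine ⟨arg ζ, ?_⟩
    have := norm_mul_exp_arg_mul_I ζ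
    rw [hζ] at this
    unfold E
    rw [ofReal_one, one_mul] at this
    exact this.symm
  obtain ⟨D, hD⟩ : ∃ D, D = w * (starRingEnd ℂ) ζ := ⟨_, rfl⟩
  have hn : normSq D = 1 := by
    rw [hD, normSq_eq_norm_sq, norm_mul, RCLike.norm_conj, hζ, hw]; norm_num
  have hwD : w = D * ζ := by
    have : ζ * (starRingEnd ℂ) ζ = 1 := by
      rw [mul_conj, normSq_eq_norm_sq, hζ]; norm_num
    rw [hD]
    linear_combination (-w) * this
  rw [← hD] at h
  rw [normSq_apply, h] at hn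
  have hs := Real.sin_sq_add_cos_sq (2 * t)
  have hi : (D.im - Real.sin (2 * t)) * (D.im + Real.sin (2 * t)) = 0 := by linarith
  rcases mul_eq_zero.mp hi with h1 | h1
  · refine ⟨x + t, Or.inr ⟨by rw [hx]; congr 1; ring, ?_⟩⟩
    have : D = E (2 * t) := by
      apply Complex.ext
      · rw [h, E_re]
      · rw [E_im]; linarith
    rw [hwD, this, hx, ← E_add]
    congr 1; ring
  · refine ⟨x - t, Or.inl ⟨by rw [hx]; congr 1; ring, ?_⟩⟩
    have : D = E (-(2 * t)) := by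
      apply Complex.ext
      · rw [h, E_re, Real.cos_neg]
      · rw [E_im, Real.sin_neg]; linarith
    rw [hwD, this, hx, ← E_add]
    congr 1; ring

/-- The hard direction. -/
theorem bad (a b ρ : ℝ) (ha : 0 < a) (hb : 0 < b) (hab : a ≠ b) (h3 : a ^ 2 ≠ 3 * b ^ 2)
    (h3' : b ^ 2 ≠ 3 * a ^ 2) (hρ1 : √(a ^ 2 + b ^ 2) / 2 < ρ)
    (hρ2 : (a ^ 2 + b ^ 2) / (4 * min a b) ≤ ρ) :
    ∃ f : Pl → ℝ, Continuous f ∧ (∀ x, 0 ≤ f x) ∧ (∀ x, ρ ≤ ‖x‖ → f x = 0) ∧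
      ∀ (g : Pl ≃ᵢ Pl) (lam : ℝ), ‖g 0‖ < ρ → f (g !₂[a / 2, b / 2]) = lam →
        f (g !₂[-(a / 2), b / 2]) = lam → f (g !₂[-(a / 2), -(b / 2)]) = lam →
        f (g !₂[a / 2, -(b / 2)]) = lam → False := by
  have hπ := Real.pi_pos
  have hS : 0 < a ^ 2 + b ^ 2 := by positivity
  obtain ⟨R, hR⟩ : ∃ R, R = √(a ^ 2 + b ^ 2) / 2 := ⟨_, rfl⟩
  have hR0 : 0 < R := by rw [hR]; positivity
  have hR2 : 4 * R ^ 2 = a ^ 2 + b ^ 2 := by
    rw [hR, div_pow, Real.sq_sqrt hS.le]; ring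
  rw [← hR] at hρ1
  have hρ0 : 0 < ρ := hR0.trans hρ1
  obtain ⟨m, hm⟩ : ∃ m, m = min a b := ⟨_, rfl⟩
  have hm0 : 0 < m := by rw [hm]; exact lt_min ha hb
  have hm2 : 2 * m ^ 2 < a ^ 2 + b ^ 2 := by
    rw [hm]
    rcases lt_or_gt_of_ne hab with h | h
    · rw [min_eq_left h.le]; nlinarith
    · rw [min_eq_right h.le]; nlinarith
  have hm4 : 4 * m ^ 2 ≠ a ^ 2 + b ^ 2 := by
    rw [hm]
    rcases lt_or_gt_of_ne hab with h | h
    · rw [min_eq_left h.le]; intro h'; exact h3' (by linarith)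
    · rw [min_eq_right h.le]; intro h'; exact h3 (by linarith)
  rw [← hm] at hρ2
  obtain ⟨s, hs⟩ : ∃ s, s = m / (2 * R) := ⟨_, rfl⟩
  have hs0 : 0 < s := by rw [hs]; positivity
  have hsm : s ^ 2 * (a ^ 2 + b ^ 2) = m ^ 2 := by
    rw [hs, ← hR2]; field_simp; ring
  have hs2 : s ^ 2 < 1 / 2 := by
    by_contra hh
    push Not at hh
    nlinarith
  have hs1 : s < 1 := by nlinarith
  obtain ⟨t, ht⟩ : ∃ t, t = Real.arcsin s := ⟨_, rfl⟩
  have hst : Real.sin t = s := by rw [ht]; exact Real.sin_arcsin (by linarith) hs1.le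
  have ht0 : 0 < t := by rw [ht]; exact Real.arcsin_pos.mpr hs0
  have ht1 : t < Real.pi / 4 := by
    rw [ht, Real.arcsin_lt_iff_lt_sin ⟨by linarith, hs1.le⟩ ⟨by linarith, by linarith⟩,
      Real.sin_pi_div_four]
    have h2 : √2 ^ 2 = 2 := Real.sq_sqrt (by norm_num)
    have h3 : 0 < √2 := Real.sqrt_pos.mpr (by norm_num)
    nlinarith
  have ht6 : t ≠ Real.pi / 6 := by
    intro h
    rw [h, Real.sin_pi_div_six] at hst
    apply hm4
    rw [← hsm, ← hst]; ring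
  have hcos : Real.cos (2 * t) * (a ^ 2 + b ^ 2) = a ^ 2 + b ^ 2 - 2 * m ^ 2 := by
    rw [Real.cos_two_mul', Real.cos_sq', hst, ← hsm]; ring
  have hρR : 1 < ρ / R := by rw [lt_div_iff₀ hR0]; linarith
  have hρs : 1 ≤ 2 * (ρ / R) * Real.sin t := by
    rw [hst, hs]
    rw [div_le_iff₀ (by positivity)] at hρ2
    have e : 2 * (ρ / R) * (m / (2 * R)) = 4 * ρ * m / (4 * R ^ 2) := by field_simp
    rw [e, hR2, le_div_iff₀ hS]
    linarith
  obtain ⟨φ, φc, φ0, φz, φm⟩ := unit t (ρ / R) ht0 ht1 ht6 hρR hρs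
  let ψ : ℂ ≃ₗᵢ[ℝ] EuclideanSpace ℝ (Fin 2) := Complex.orthonormalBasisOneI.repr
  have key : ∀ (c ζ w : ℂ) (lam : ℝ), normSq c < (ρ / R) ^ 2 → ‖ζ‖ = 1 → ‖w‖ = 1 →
      (w * (starRingEnd ℂ) ζ).re = Real.cos (2 * t) → φ (c + ζ) = lam → φ (c - ζ) = lam →
      φ (c + w) = lam → φ (c - w) = lam → False := by
    intro c ζ w lam hc hζ hw hre h1 h2 h3 h4
    obtain ⟨ν, ⟨rfl, rfl⟩ | ⟨rfl, rfl⟩⟩ := pair ζ w t hζ hw hre
    · exact φm c ν lam hc h1 h2 h3 h4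
    · exact φm c ν lam hc h3 h4 h1 h2
  refine ⟨fun x => φ (R⁻¹ • ψ.symm x), φc.comp ((ψ.symm.continuous).const_smul R⁻¹),
    fun x => φ0 _, ?_, ?_⟩
  · intro x hx
    apply φz
    rw [Complex.normSq_eq_norm_sq, norm_smul, LinearIsometryEquiv.norm_map, norm_inv,
      Real.norm_of_nonneg hR0.le, inv_mul_eq_div]
    gcongr
  · intro g lam hg h1 h2 h3 h4
    let L : EuclideanSpace ℝ (Fin 2) ≃ₗᵢ[ℝ] EuclideanSpace ℝ (Fin 2) := g.toRealLinearIsometryEquiv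
    have hL : ∀ x, g x = g 0 + L x := by
      intro x
      have : L x = g x - g 0 := g.toRealLinearIsometryEquiv_apply x
      rw [this]; abel
    have n1 : ‖(!₂[a / 2, b / 2] : EuclideanSpace ℝ (Fin 2))‖ = R := by
      rw [EuclideanSpace.norm_eq, Fin.sum_univ_two]
      simp only [Real.norm_eq_abs, sq_abs]
      rw [Real.sqrt_eq_iff_mul_self_eq (by positivity) hR0.le]
      simp
      nlinarith [hR2]
    have n2 : ‖(!₂[-(a / 2), b / 2] : EuclideanSpace ℝ (Fin 2))‖ = R := by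
      rw [EuclideanSpace.norm_eq, Fin.sum_univ_two]
      simp only [Real.norm_eq_abs, sq_abs]
      rw [Real.sqrt_eq_iff_mul_self_eq (by positivity) hR0.le]
      simp
      nlinarith [hR2]
    have m1 : (!₂[-(a / 2), -(b / 2)] : EuclideanSpace ℝ (Fin 2)) = -!₂[a / 2, b / 2] := by
      ext i; fin_cases i <;> simp
    have m2 : (!₂[a / 2, -(b / 2)] : EuclideanSpace ℝ (Fin 2)) = -!₂[-(a / 2), b / 2] := by
      ext i; fin_cases i <;> simp
    have ip : inner ℝ (!₂[a / 2, b / 2] : EuclideanSpace ℝ (Fin 2)) !₂[-(a / 2), b / 2] =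
        (b ^ 2 - a ^ 2) / 4 := by
      simp [PiLp.inner_apply, Fin.sum_univ_two]
      ring
    obtain ⟨c, hc⟩ : ∃ c, c = R⁻¹ • ψ.symm (g 0) := ⟨_, rfl⟩
    obtain ⟨ζ, hζ⟩ : ∃ ζ, ζ = R⁻¹ • ψ.symm (L !₂[a / 2, b / 2]) := ⟨_, rfl⟩
    obtain ⟨w, hw⟩ : ∃ w, w = R⁻¹ • ψ.symm (L !₂[-(a / 2), b / 2]) := ⟨_, rfl⟩
    have hζn : ‖ζ‖ = 1 := by
      rw [hζ, norm_smul, LinearIsometryEquiv.norm_map, LinearIsometryEquiv.norm_map, n1, norm_inv,
        Real.norm_of_nonneg hR0.le, inv_mul_cancel₀ hR0.ne']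
    have hwn : ‖w‖ = 1 := by
      rw [hw, norm_smul, LinearIsometryEquiv.norm_map, LinearIsometryEquiv.norm_map, n2, norm_inv,
        Real.norm_of_nonneg hR0.le, inv_mul_cancel₀ hR0.ne']
    have hcn : normSq c < (ρ / R) ^ 2 := by
      rw [hc, Complex.normSq_eq_norm_sq, norm_smul, LinearIsometryEquiv.norm_map, norm_inv,
        Real.norm_of_nonneg hR0.le, inv_mul_eq_div]
      gcongr
    have hip : (w * (starRingEnd ℂ) ζ).re * (a ^ 2 + b ^ 2) = b ^ 2 - a ^ 2 := by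
      have : inner ℝ ζ w = (b ^ 2 - a ^ 2) / (4 * R ^ 2) := by
        rw [hζ, hw, real_inner_smul_left, real_inner_smul_right, LinearIsometryEquiv.inner_map_map,
          LinearIsometryEquiv.inner_map_map, ip]
        field_simp
      rw [Complex.inner, hR2] at this
      rw [this]
      field_simp
    have e1 : R⁻¹ • ψ.symm (g !₂[a / 2, b / 2]) = c + ζ := by
      rw [hL, map_add, smul_add, hc, hζ]
    have e2 : R⁻¹ • ψ.symm (g !₂[-(a / 2), b / 2]) = c + w := by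
      rw [hL, map_add, smul_add, hc, hw]
    have e3 : R⁻¹ • ψ.symm (g !₂[-(a / 2), -(b / 2)]) = c - ζ := by
      rw [m1, hL, map_neg, map_add, smul_add, map_neg, smul_neg, hc, hζ, sub_eq_add_neg]
    have e4 : R⁻¹ • ψ.symm (g !₂[a / 2, -(b / 2)]) = c - w := by
      rw [m2, hL, map_neg, map_add, smul_add, map_neg, smul_neg, hc, hw, sub_eq_add_neg]
    simp only [e1] at h1
    simp only [e2] at h2
    simp only [e3] at h3
    simp only [e4] at h4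
    rcases lt_or_gt_of_ne hab with h | h
    · have hmm : m = a := by rw [hm]; exact min_eq_left h.le
      refine key c ζ w lam hcn hζn hwn ?_ h1 h3 h2 h4
      rw [hmm] at hcos
      exact mul_right_cancel₀ hS.ne' (by rw [hip, hcos]; ring)
    · have hmm : m = b := by rw [hm]; exact min_eq_right h.le
      refine key c ζ (-w) lam hcn hζn (by rw [norm_neg]; exact hwn) ?_ h1 h3
        (by rw [← sub_eq_add_neg]; exact h4) (by rw [sub_neg_eq_add]; exact h2)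
      rw [hmm] at hcos
      rw [neg_mul, neg_re]
      exact mul_right_cancel₀ hS.ne' (by rw [neg_mul, hip, hcos]; ring)

/-- A continuous function which vanishes outside of the disc vanishes on the circle. -/
theorem zero_on {f : Pl → ℝ} (hf : Continuous f) {ρ : ℝ} (hρ : 0 < ρ)
    (h : ∀ x, x ∉ Metric.closedBall (0 : Pl) ρ → f x = 0) {x : Pl} (hx : ρ ≤ ‖x‖) : f x = 0 := by
  have h1 : Filter.Tendsto (fun n : ℕ => f ((1 + 1 / ((n : ℝ) + 1)) • x)) Filter.atTop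
      (nhds (f ((1 + 0 : ℝ) • x))) := by
    refine (hf.tendsto _).comp (Filter.Tendsto.smul_const ?_ x)
    exact tendsto_const_nhds.add tendsto_one_div_add_atTop_nhds_zero_nat
  rw [add_zero, one_smul] at h1
  refine tendsto_nhds_unique h1 ?_
  have h2 : (fun n : ℕ => f ((1 + 1 / ((n : ℝ) + 1)) • x)) = fun _ => 0 := by
    funext n
    apply h
    rw [Metric.mem_closedBall, dist_zero_right, not_le, norm_smul, Real.norm_of_nonneg (by positivity)]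
    have : 0 < 1 / ((n : ℝ) + 1) := by positivity
    have h3 : 0 < ‖x‖ := hρ.trans_le hx
    nlinarith
  rw [h2]
  exact tendsto_const_nhds

/-- Translates of the table far from the centre of the disc. -/
theorem far (a b ρ : ℝ) (v : Pl) (f : Pl → ℝ) (hρ : 0 < ρ) (hf : Continuous f)
    (h : ∀ x, x ∉ Metric.closedBall (0 : Pl) ρ → f x = 0)
    (h1 : ρ ^ 2 ≤ (a / 2 + v 0) ^ 2 + (b / 2 + v 1) ^ 2)
    (h2 : ρ ^ 2 ≤ (-(a / 2) + v 0) ^ 2 + (b / 2 + v 1) ^ 2)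
    (h3 : ρ ^ 2 ≤ (-(a / 2) + v 0) ^ 2 + (-(b / 2) + v 1) ^ 2)
    (h4 : ρ ^ 2 ≤ (a / 2 + v 0) ^ 2 + (-(b / 2) + v 1) ^ 2) :
    f (IsometryEquiv.addRight v !₂[a / 2, b / 2]) = 0 ∧
      f (IsometryEquiv.addRight v !₂[-(a / 2), b / 2]) = 0 ∧
      f (IsometryEquiv.addRight v !₂[-(a / 2), -(b / 2)]) = 0 ∧
      f (IsometryEquiv.addRight v !₂[a / 2, -(b / 2)]) = 0 := by
  have key : ∀ x y : ℝ, ρ ^ 2 ≤ (x + v 0) ^ 2 + (y + v 1) ^ 2 →
      f (IsometryEquiv.addRight v !₂[x, y]) = 0 := by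
    intro x y hxy
    refine zero_on hf hρ h ?_
    rw [EuclideanSpace.norm_eq, Fin.sum_univ_two]
    refine Real.le_sqrt_of_sq_le ?_
    simpa using hxy
  exact ⟨key _ _ h1, key _ _ h2, key _ _ h3, key _ _ h4⟩

end Pool.Agent.Y607.RT
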